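import Pool.Agent.Q104.LadderPath

set_option autoImplicit false

/-!
# MP_703902_co: an infinite vertex-transitive graph in which every vertex is `0`-positive

The two-sided infinite ladder (the Cartesian product of the bi-infinite path and `K₂`) answers
the question positively.
-/

namespace Pool.Agent.Results.MP_703902_co.Ladder

open Pool.Agent.Q104.PT MeasureTheory

/-- `G` is vertex-transitive. -/
def VertexTransitive {V : Type} (G : SimpleGraph V) : Prop :=
  ∀ u v : V, ∃ φ : G ≃g G, φ u = v

lemma nbr_ladder {h w : ℤ × Bool} (hw : ladder.Adj h w) :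
    w = (h.1 + 1, h.2) ∨ w = (h.1 - 1, h.2) ∨ w = (h.1, !h.2) := by
  obtain ⟨p, q⟩ := w
  rcases hw with ⟨h1, h2 | h2⟩ | ⟨h1, h2⟩
  · left
    simp only at h1 h2
    rw [h1, h2]
  · right; left
    simp only at h1 h2
    rw [h1, h2]
    simp
  · right; right
    simp only at h1 h2
    rw [h1]
    congr 1
    cases q <;> cases h' : h.2 <;> simp_all

lemma ladder_degrees (u : ℤ × Bool) : DegreesLE (ladder.induce ({u}ᶜ : Set (ℤ × Bool))) 3 := by
  classical
  intro v
  have hsub : Subtype.val '' ((ladder.induce ({u}ᶜ : Set (ℤ × Bool))).neighborSet v) ⊆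
      (({(v.1.1 + 1, v.1.2), (v.1.1 - 1, v.1.2), (v.1.1, !v.1.2)} : Finset (ℤ × Bool)) :
        Set (ℤ × Bool)) := by
    rintro _ ⟨w, hw, rfl⟩
    have := nbr_ladder (h := v.1) (w := w.1) hw
    simpa using this
  have hfin : (Subtype.val '' ((ladder.induce ({u}ᶜ : Set (ℤ × Bool))).neighborSet v)).Finite :=
    Set.Finite.subset (Finset.finite_toSet _) hsub
  refine ⟨Set.Finite.of_finite_image hfin Subtype.val_injective.injOn, ?_⟩
  rw [← Set.ncard_image_of_injective _ Subtype.val_injective]
  calc _ ≤ _ := Set.ncard_le_ncard hsub (Finset.finite_toSet _)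
    _ ≤ 3 := by
      rw [Set.ncard_coe_finset]
      exact Finset.card_le_three

lemma ladder_degrees' : DegreesLE ladder 3 := by
  classical
  intro v
  have hsub : ladder.neighborSet v ⊆
      (({(v.1 + 1, v.2), (v.1 - 1, v.2), (v.1, !v.2)} : Finset (ℤ × Bool)) :
        Set (ℤ × Bool)) := by
    intro w hw
    have := nbr_ladder (h := v) (w := w) hw
    simpa using this
  refine ⟨Set.Finite.subset (Finset.finite_toSet _) hsub, ?_⟩
  calc _ ≤ _ := Set.ncard_le_ncard hsub (Finset.finite_toSet _)
    _ ≤ 3 := by
      rw [Set.ncard_coe_finset]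
      exact Finset.card_le_three

section Kernel

variable (c : ℤ) (s : Bool)

/-- the starting vertex `(c, !s)` in the ladder minus `(c, s)` -/
def start : (({(c, s)}ᶜ : Set (ℤ × Bool))) := ⟨(c, !s), by
  intro h
  have h1 : ((c, !s) : ℤ × Bool) = (c, s) := h
  rw [Prod.mk.injEq] at h1
  exact not_ne s h1.2⟩

/-- the paths from `(c, !s)` in the ladder minus `(c, s)` -/
abbrev PP : Type := PathsFrom (ladder.induce ({(c, s)}ᶜ : Set (ℤ × Bool))) (start c s)

lemma inv_path (n : ℕ) : ∀ p : PP c s, p.1.length = n + 2 →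
    Inv (fun w => w = (c, s) ∨ w ∈ p.1.map Subtype.val) (p.1.head (ne_nil p)).1
      (st c (p.1.map Subtype.val)) := by
  induction n with
  | zero =>
    intro p hp
    obtain ⟨l, hl⟩ := p
    match l, hl, hp with
    | [w, o], hl, hp =>
      have ho : o = start c s := by
        have := hl.1
        simpa using this
      subst ho
      have hX : ∀ w' : ℤ × Bool, (w' = (c, s) ∨ w' ∈ [(start c s).1]) ↔ w'.1 = c := by
        rintro ⟨a, b⟩
        simp only [List.mem_singleton, start, Prod.mk.injEq]
        cases b <;> cases s <;> simp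
      have hadj : ladder.Adj (c, !s) w.1 := by
        have h1 := (List.isChain_cons_cons.1 hl.2.2).1
        exact h1.symm
      have hnX : ¬ (w.1 = (c, s) ∨ w.1 ∈ [(start c s).1]) := by
        rintro (h | h)
        · exact w.2 h
        · rw [List.mem_singleton] at h
          have h3 := (List.nodup_cons.1 hl.2.1).1
          apply h3
          rw [List.mem_singleton]
          exact Subtype.ext h
      have := inv_root (X := fun w' => w' = (c, s) ∨ w' ∈ [(start c s).1]) hX w.1 ⟨hadj, hnX⟩
      have he : (fun w' : ℤ × Bool => w' = (c, s) ∨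
          w' ∈ ([w, start c s].map Subtype.val)) =
          (fun v => v = w.1 ∨ (v = (c, s) ∨ v ∈ [(start c s).1])) := by
        funext v
        apply propext
        simp only [List.map_cons, List.map_nil, List.mem_cons, List.not_mem_nil, or_false]
        tauto
      show Inv (fun w' : ℤ × Bool => w' = (c, s) ∨
          w' ∈ ([w, start c s].map Subtype.val)) w.1 (step c .root w.1)
      rw [he]
      exact this
  | succ n ih =>
    intro p hp
    obtain ⟨l, hl⟩ := p
    match l, hl, hp with
    | w :: w' :: l', hl, hp =>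
      have hr : (w' :: l').getLast? = some (start c s) ∧ (w' :: l').Nodup ∧
          (w' :: l').IsChain (ladder.induce ({(c, s)}ᶜ : Set (ℤ × Bool))).Adj := by
        refine ⟨?_, (List.nodup_cons.1 hl.2.1).2, (List.isChain_cons_cons.1 hl.2.2).2⟩
        have := hl.1
        simpa [List.getLast?_cons_cons] using this
      have h1 := ih ⟨w' :: l', hr⟩ (by simp at hp ⊢; exact hp)
      have h1' : Inv (fun v => v = (c, s) ∨ v ∈ (w' :: l').map Subtype.val) w'.1
        (st c ((w' :: l').map Subtype.val)) := h1
      have hadj : ladder.Adj w'.1 w.1 := by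
        have h1 := (List.isChain_cons_cons.1 hl.2.2).1
        exact h1.symm
      have hnX : ¬ (w.1 = (c, s) ∨ w.1 ∈ (w' :: l').map Subtype.val) := by
        rintro (h | h)
        · exact w.2 h
        · have h3 := (List.nodup_cons.1 hl.2.1).1
          apply h3
          rw [List.mem_map] at h
          obtain ⟨a, ha, hab⟩ := h
          rw [← Subtype.ext hab]
          exact ha
      have h2 := inv_step c h1' ((mv_spec h1' w.1).2 ⟨hadj, hnX⟩)
      have he : (fun v : ℤ × Bool => v = (c, s) ∨
          v ∈ ((w :: w' :: l').map Subtype.val)) =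
          (fun v => v = w.1 ∨ (v = (c, s) ∨ v ∈ (w' :: l').map Subtype.val)) := by
        funext v
        apply propext
        simp only [List.map_cons, List.mem_cons]
        tauto
      show Inv (fun v : ℤ × Bool => v = (c, s) ∨
          v ∈ ((w :: w' :: l').map Subtype.val)) w.1 (step c (st c ((w' :: l').map Subtype.val)) w.1)
      rw [he]
      exact h2

/-- the kernel vector -/
noncomputable def f (p : PP c s) : ℝ := val (st c (p.1.map Subtype.val))

/-- the supersolution -/
noncomputable def Ph (p : PP c s) : ℝ := Phi (st c (p.1.map Subtype.val))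

lemma root_moves (w : ℤ × Bool) : w ∈ ({(c + 1, !s), (c - 1, !s)} : Finset (ℤ × Bool)) ↔
    (ladder.Adj (c, !s) w ∧ w ≠ (c, s) ∧ w ∉ [((c, !s) : ℤ × Bool)]) := by
  obtain ⟨a, b⟩ := w
  simp only [Finset.mem_insert, Finset.mem_singleton, Prod.mk.injEq, ne_eq, List.mem_singleton,
    ladder]
  constructor
  · rintro (⟨rfl, rfl⟩ | ⟨rfl, rfl⟩)
    · refine ⟨Or.inl ⟨rfl, Or.inl rfl⟩, ?_, ?_⟩ <;> rintro ⟨h, _⟩ <;> omega
    · refine ⟨Or.inl ⟨rfl, Or.inr (by omega)⟩, ?_, ?_⟩ <;> rintro ⟨h, _⟩ <;> omega
  · rintro ⟨⟨h1, h2 | h2⟩ | ⟨h1, h2⟩, h3, h4⟩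
    · left; exact ⟨h2, h1.symm⟩
    · right; exact ⟨by omega, h1.symm⟩
    · exfalso
      apply h3
      refine ⟨h1.symm, ?_⟩
      cases b <;> cases s <;> simp_all

lemma sum_root (F : List (ℤ × Bool) → ℝ) :
    ∑ q ∈ ch (ladder_degrees (c, s)) (start c s) (rootPath _ (start c s)),
      F (q.1.map Subtype.val) = F [(c + 1, !s), (c, !s)] + F [(c - 1, !s), (c, !s)] := by
  rw [sum_ch (ladder_degrees (c, s)) (start c s) (rootPath _ (start c s)) F
    ({(c + 1, !s), (c - 1, !s)} : Finset (ℤ × Bool)) (root_moves c s)]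
  rw [Finset.sum_pair]
  · rfl
  · intro h
    rw [Prod.mk.injEq] at h
    omega

lemma sum_cons (F : List (ℤ × Bool) → ℝ) (p : PP c s) {n : ℕ} (hp : p.1.length = n + 2) :
    ∑ q ∈ ch (ladder_degrees (c, s)) (start c s) p, F (q.1.map Subtype.val) =
      ∑ w ∈ mv (st c (p.1.map Subtype.val)), F (w :: p.1.map Subtype.val) := by
  apply sum_ch
  intro w
  rw [mv_spec (inv_path c s n p hp)]
  constructor
  · rintro ⟨h1, h2⟩
    exact ⟨h1, fun h => h2 (Or.inl h), fun h => h2 (Or.inr h)⟩
  · rintro ⟨h1, h2, h3⟩
    refine ⟨h1, ?_⟩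
    rintro (h | h)
    · exact h2 h
    · exact h3 h

lemma eq_root (p : PP c s) (hp : p.1.length = 1) : p = rootPath _ (start c s) := by
  apply Subtype.ext
  obtain ⟨a, ha⟩ := List.length_eq_one_iff.1 hp
  have h1 := p.2.1
  rw [ha] at h1
  simp at h1
  rw [ha, h1]
  rfl

lemma st_cons {w : ℤ × Bool} {l : List (ℤ × Bool)} (hl : l ≠ []) :
    st c (w :: l) = step c (st c l) w := by
  obtain ⟨a, l', rfl⟩ := List.exists_cons_of_ne_nil hl
  rfl

lemma kernel (p : PP c s) :
    ∑ q ∈ nb (ladder_degrees (c, s)) (start c s) p, f c s q = 0 := by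
  have hpos : 0 < p.1.length := List.length_pos_iff.2 (ne_nil p)
  rcases Nat.lt_or_ge p.1.length 2 with h2 | h2
  · have hp := eq_root c s p (by omega)
    subst hp
    rw [sum_nb_root]
    have := sum_root c s (fun l => val (st c l))
    have e : ∑ q ∈ ch (ladder_degrees (c, s)) (start c s) (rootPath _ (start c s)), f c s q =
      val (st c [(c + 1, !s), (c, !s)]) + val (st c [(c - 1, !s), (c, !s)]) := this
    rw [e]
    simp [st, step, val]
  · obtain ⟨n, hn⟩ : ∃ n, p.1.length = n + 2 := ⟨p.1.length - 2, by omega⟩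
    obtain ⟨l, hl⟩ := p
    match l, hl, hn with
    | w :: w' :: l', hl, hn =>
      have hr : (w' :: l').getLast? = some (start c s) ∧ (w' :: l').Nodup ∧
          (w' :: l').IsChain (ladder.induce ({(c, s)}ᶜ : Set (ℤ × Bool))).Adj := by
        refine ⟨?_, (List.nodup_cons.1 hl.2.1).2, (List.isChain_cons_cons.1 hl.2.2).2⟩
        have := hl.1
        simpa [List.getLast?_cons_cons] using this
      rw [sum_nb_cons (ladder_degrees (c, s)) (start c s) ⟨w :: w' :: l', hl⟩ ⟨w' :: l', hr⟩ w rfl]
      have h1 := sum_cons c s (fun l => val (st c l)) ⟨w :: w' :: l', hl⟩ hn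
      have h1' : ∑ q ∈ ch (ladder_degrees (c, s)) (start c s) ⟨w :: w' :: l', hl⟩, f c s q =
        ∑ v ∈ mv (st c ((w :: w' :: l').map Subtype.val)),
          val (step c (st c ((w :: w' :: l').map Subtype.val)) v) := h1
      rw [h1']
      have hinv := inv_path c s n ⟨w :: w' :: l', hl⟩ hn
      have hinv' : Inv (fun v => v = (c, s) ∨ v ∈ (w :: w' :: l').map Subtype.val) w.1
        (st c ((w :: w' :: l').map Subtype.val)) := hinv
      have hker := ker_step c hinv'.sane
      have hpv : f c s ⟨w' :: l', hr⟩ = pv (st c ((w :: w' :: l').map Subtype.val)) := by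
        show val (st c ((w' :: l').map Subtype.val)) =
          pv (step c (st c ((w' :: l').map Subtype.val)) w.1)
        rcases l' with _ | ⟨w'', l''⟩
        · -- parent is the root
          simp [st, step, val, pv]
        · have hinv2 := inv_path c s l''.length ⟨w' :: w'' :: l'', hr⟩ (by simp)
          have hinv2' : Inv (fun v => v = (c, s) ∨ v ∈ (w' :: w'' :: l'').map Subtype.val) w'.1
            (st c ((w' :: w'' :: l'').map Subtype.val)) := hinv2
          have hadj : ladder.Adj w'.1 w.1 := by
            have h1 := (List.isChain_cons_cons.1 hl.2.2).1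
            exact h1.symm
          have hnX : ¬ (w.1 = (c, s) ∨ w.1 ∈ (w' :: w'' :: l'').map Subtype.val) := by
            rintro (h | h)
            · exact w.2 h
            · have h3 := (List.nodup_cons.1 hl.2.1).1
              apply h3
              rw [List.mem_map] at h
              obtain ⟨a, ha, hab⟩ := h
              rw [← Subtype.ext hab]
              exact ha
          rw [pv_step c hinv2'.sane ((mv_spec hinv2' w.1).2 ⟨hadj, hnX⟩)]
      rw [hpv]
      exact hker

lemma super (p : PP c s) :
    f c s p ^ 2 + ∑ q ∈ ch (ladder_degrees (c, s)) (start c s) p, Ph c s q ≤ Ph c s p := by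
  have hpos : 0 < p.1.length := List.length_pos_iff.2 (ne_nil p)
  rcases Nat.lt_or_ge p.1.length 2 with h2 | h2
  · have hp := eq_root c s p (by omega)
    subst hp
    have := sum_root c s (fun l => Phi (st c l))
    have e : ∑ q ∈ ch (ladder_degrees (c, s)) (start c s) (rootPath _ (start c s)), Ph c s q =
      Phi (st c [(c + 1, !s), (c, !s)]) + Phi (st c [(c - 1, !s), (c, !s)]) := this
    rw [e]
    have e1 : f c s (rootPath _ (start c s)) = 1 := rfl
    have e2 : Ph c s (rootPath _ (start c s)) = 5 := rfl
    rw [e1, e2]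
    simp [st, step, Phi]
    norm_num
  · obtain ⟨n, hn⟩ : ∃ n, p.1.length = n + 2 := ⟨p.1.length - 2, by omega⟩
    have h1 := sum_cons c s (fun l => Phi (st c l)) p hn
    have hne : p.1.map Subtype.val ≠ [] := by
      intro h
      rw [List.map_eq_nil_iff] at h
      exact ne_nil p h
    have h1' : ∑ q ∈ ch (ladder_degrees (c, s)) (start c s) p, Ph c s q =
        ∑ v ∈ mv (st c (p.1.map Subtype.val)),
          Phi (step c (st c (p.1.map Subtype.val)) v) := by
      rw [show ∑ q ∈ ch (ladder_degrees (c, s)) (start c s) p, Ph c s q =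
        ∑ v ∈ mv (st c (p.1.map Subtype.val)), Phi (st c (v :: p.1.map Subtype.val)) from h1]
      apply Finset.sum_congr rfl
      intro v _
      rw [st_cons c hne]
    rw [h1']
    exact Phi_step c (inv_path c s n p hn).sane

/-- The matching measure of the ladder minus `(c, s)` at `(c, !s)` has an atom at `0`. -/
theorem atom : 0 < matchingMeasure (ladder.induce ({(c, s)}ᶜ : Set (ℤ × Bool)))
    (start c s) {0} := by
  have hD := ladder_degrees (c, s)
  apply atom_of_kernel (nb (ladder_degrees (c, s)) (start c s))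
    (mem_nb (ladder_degrees (c, s)) (start c s)) (matchingMeasure_spec hD (start c s))
    (f c s) rfl (kernel c s) 5
  intro t
  exact sum_sq_le hD (start c s) (f c s) (Ph c s) (fun p => Phi_nonneg _) (super c s) t

end Kernel

lemma zeroPositive (u : ℤ × Bool) : IsZeroPositive ladder u := by
  obtain ⟨c, s⟩ := u
  have hadj : ladder.Adj (c, s) (c, !s) := Or.inr ⟨rfl, fun h => not_ne s h.symm⟩
  have h1 := atom c s
  refine lt_of_lt_of_le h1 ?_
  exact ENNReal.le_tsum (f := fun v : ladder.neighborSet (c, s) =>
    matchingMeasure (ladder.induce ({(c, s)}ᶜ : Set (ℤ × Bool)))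
      ⟨v.1, fun h => ladder.ne_of_adj v.2 h.symm⟩ {0}) ⟨(c, !s), hadj⟩

lemma transitive : VertexTransitive ladder := by
  rintro ⟨a, r⟩ ⟨b, t⟩
  let e : (ℤ × Bool) ≃ (ℤ × Bool) :=
    Equiv.prodCongr (Equiv.addRight (b - a)) (if r = t then Equiv.refl _ else Equiv.boolNot)
  have he : ∀ p : ℤ × Bool, e p = (p.1 + (b - a), if r = t then p.2 else !p.2) := by
    intro p
    simp only [e]
    split_ifs <;> rfl
  refine ⟨⟨e, ?_⟩, ?_⟩
  · intro p q
    rw [he, he]
    simp only [ladder]
    constructor
    · rintro (⟨h1, h2⟩ | ⟨h1, h2⟩)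
      · left
        refine ⟨?_, ?_⟩
        · split_ifs at h1
          · exact h1
          · simpa using h1
        · rcases h2 with h2 | h2
          · left; omega
          · right; omega
      · right
        refine ⟨by omega, ?_⟩
        split_ifs at h2
        · exact h2
        · simpa using h2
    · rintro (⟨h1, h2⟩ | ⟨h1, h2⟩)
      · left
        refine ⟨by rw [h1], ?_⟩
        rcases h2 with h2 | h2
        · left; omega
        · right; omega
      · right
        refine ⟨by omega, ?_⟩
        split_ifs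
        · exact h2
        · simpa using h2
  · show e (a, r) = (b, t)
    rw [he]
    simp only [Prod.mk.injEq]
    refine ⟨by ring, ?_⟩
    split_ifs with h
    · exact h
    · cases r <;> cases t <;> simp_all

lemma reach_row (r : Bool) (n : ℕ) : ∀ a : ℤ, ladder.Reachable (a, r) (a + n, r) := by
  induction n with
  | zero => intro a; simp
  | succ n ih =>
    intro a
    refine (ih a).trans (SimpleGraph.Adj.reachable (Or.inl ⟨rfl, Or.inl ?_⟩))
    push_cast
    ring

lemma connected : ladder.Connected := by
  have : Nonempty (ℤ × Bool) := ⟨(0, true)⟩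
  refine SimpleGraph.Connected.mk ?_
  have row : ∀ (r : Bool) (a b : ℤ), ladder.Reachable (a, r) (b, r) := by
    intro r a b
    rcases le_total a b with h | h
    · obtain ⟨n, hn⟩ := Int.eq_ofNat_of_zero_le (sub_nonneg.2 h)
      have := reach_row r n a
      rwa [← hn, add_sub_cancel] at this
    · obtain ⟨n, hn⟩ := Int.eq_ofNat_of_zero_le (sub_nonneg.2 h)
      have := reach_row r n b
      rw [← hn, add_sub_cancel] at this
      exact this.symm
  rintro ⟨a, r⟩ ⟨b, t⟩
  by_cases h : r = t
  · subst h
    exact row r a b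
  · exact (row r a b).trans (SimpleGraph.Adj.reachable (Or.inr ⟨rfl, h⟩))

/-- (1) For graphs of bounded degree the matching measure exists and is unique (so that the
notions below mean what they should). (2) There is an infinite connected vertex-transitive graph
of bounded degree in which every vertex is `0`-positive: the two-sided infinite ladder. -/
theorem result :
    (∀ (V : Type) (G : SimpleGraph V) (D : ℕ), DegreesLE G D → ∀ o : V,
      ∃! μ : Measure ℝ, IsMatchingMeasure G o μ) ∧
    ∃ (V : Type) (G : SimpleGraph V), Infinite V ∧ Countable V ∧ G.Connected ∧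
      (∃ D : ℕ, DegreesLE G D) ∧ VertexTransitive G ∧ ∀ u : V, IsZeroPositive G u :=
  ⟨fun _ _ _ hD o => existsUnique_matchingMeasure hD o,
    ℤ × Bool, ladder, inferInstance, inferInstance, connected, ⟨3, ladder_degrees'⟩, transitive,
    zeroPositive⟩

end Pool.Agent.Results.MP_703902_co.Ladder
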